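import Pool.Agent.H65.AD.TargetsA
import Pool.Agent.H95.AD.TargetsU

/-!
# The large sieve for the quadratic characters
-/

set_option autoImplicit false

open MeasureTheory Set Filter
open scoped Real

namespace Pool.Agent.H37.ADM

open Pool.Agent.H31.CN Pool.Agent.H95.AD Pool.Agent.H50.CN Pool.Agent.H65.AD

theorem spacing (r r' a a' Y : ℕ) (hr : 2 ≤ r) (hr' : 2 ≤ r') (hrY : r ≤ Y) (hrY' : r' ≤ Y)
    (ha : a < r) (ha' : a' < r') (hc : Nat.Coprime a r) (hc' : Nat.Coprime a' r')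
    (hne : ¬ (r = r' ∧ a = a')) :
    1 / (Y : ℝ) ^ 2 ≤ nd ((a : ℝ) / r - (a' : ℝ) / r') := by
  unfold nd
  obtain ⟨k, hk⟩ : ∃ k : ℤ, k = round ((a : ℝ) / r - (a' : ℝ) / r') := ⟨_, rfl⟩
  rw [← hk]
  have hr0 : (0 : ℝ) < r := by exact_mod_cast (by omega : 0 < r)
  have hr0' : (0 : ℝ) < r' := by exact_mod_cast (by omega : 0 < r')
  have h1 : (a : ℝ) / r - (a' : ℝ) / r' - k =
      (((a : ℤ) * r' - a' * r - k * (r * r') : ℤ) : ℝ) / ((r : ℝ) * r') := by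
    push_cast
    field_simp
  have hm : (a : ℤ) * r' - a' * r - k * (r * r') ≠ 0 := by
    intro h0
    have e1 : (0 : ℤ) ≤ (a : ℤ) * r' := by positivity
    have e2 : (0 : ℤ) ≤ (a' : ℤ) * r := by positivity
    have e3 : (a : ℤ) * r' < r * r' := by
      have : (a : ℤ) < r := by exact_mod_cast ha
      have h5 : (0 : ℤ) < r' := by exact_mod_cast (by omega : 0 < r')
      exact mul_lt_mul_of_pos_right this h5
    have e4 : (a' : ℤ) * r < r * r' := by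
      have : (a' : ℤ) < r' := by exact_mod_cast ha'
      have h5 : (0 : ℤ) < r := by exact_mod_cast (by omega : 0 < r)
      calc (a' : ℤ) * r < r' * r := mul_lt_mul_of_pos_right this h5
        _ = r * r' := mul_comm _ _
    have e5 : (0 : ℤ) < (r : ℤ) * r' := lt_of_le_of_lt e1 e3
    have hk0 : k = 0 := by
      have f1 : k * ((r : ℤ) * r') < 1 * (r * r') := by linarith
      have f2 : (-1) * ((r : ℤ) * r') < k * (r * r') := by linarith
      have g1 := lt_of_mul_lt_mul_right f1 e5.le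
      have g2 := lt_of_mul_lt_mul_right f2 e5.le
      omega
    rw [hk0, zero_mul, sub_zero] at h0
    have h2 : a * r' = a' * r := by
      have : (a : ℤ) * r' = a' * r := by linarith
      exact_mod_cast this
    have d1 : r ∣ r' := by
      have : r ∣ a * r' := by rw [h2]; exact Dvd.intro_left _ rfl
      exact hc.symm.dvd_of_dvd_mul_left this
    have d2 : r' ∣ r := by
      have : r' ∣ a' * r := by rw [← h2]; exact Dvd.intro_left _ rfl
      exact hc'.symm.dvd_of_dvd_mul_left this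
    have h3 := Nat.dvd_antisymm d1 d2
    subst h3
    exact hne ⟨rfl, Nat.eq_of_mul_eq_mul_right (by omega) h2⟩
  have h2 : (1 : ℝ) ≤ |(((a : ℤ) * r' - a' * r - k * (r * r') : ℤ) : ℝ)| := by
    rw [← Int.cast_abs]
    exact_mod_cast Int.one_le_abs hm
  rw [h1, abs_div, abs_of_pos (mul_pos hr0 hr0')]
  have h3 : (r : ℝ) * r' ≤ (Y : ℝ) ^ 2 := by
    rw [sq]
    have a1 : (r : ℝ) ≤ Y := by exact_mod_cast hrY
    have a2 : (r' : ℝ) ≤ Y := by exact_mod_cast hrY'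
    exact mul_le_mul a1 a2 hr0'.le (hr0.le.trans a1)
  calc 1 / (Y : ℝ) ^ 2 ≤ 1 / ((r : ℝ) * r') := one_div_le_one_div_of_le (mul_pos hr0 hr0') h3
    _ ≤ _ := by gcongr

theorem pf_QLS (hDLS : Pool.Agent.H95.AD.T_DLS) (hREP : T_REP) : T_QLS := by
  obtain ⟨C, hC, hD⟩ := hDLS
  refine ⟨C, hC, ?_⟩
  intro X Y s b hX hs
  rcases s.eq_empty_or_nonempty with rfl | ⟨r0, hr0⟩
  · simp
  have hY : 2 ≤ Y := (hs r0 hr0).1.trans (hs r0 hr0).2.1
  have hY0 : (0 : ℝ) < Y := by exact_mod_cast (by omega : 0 < Y)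
  choose! ε hε1 hε2 using hREP
  obtain ⟨t, ht⟩ : ∃ t : ℕ → Finset ℕ,
    t = fun r => (Finset.range r).filter (fun a => Nat.Coprime a r) := ⟨_, rfl⟩
  have hmem : ∀ r a, a ∈ t r ↔ a < r ∧ Nat.Coprime a r := by
    intro r a
    rw [ht, Finset.mem_filter, Finset.mem_range]
  obtain ⟨c, hc⟩ : ∃ c : (Σ _ : ℕ, ℕ) → ℂ, c = fun z => ((b z.1 : ℝ) : ℂ) *
    ((1 / Real.sqrt z.1 : ℝ) : ℂ) * ε z.1 z.2 := ⟨_, rfl⟩
  have h1 := hD (Σ _ : ℕ, ℕ) (s.sigma t) (fun z => (z.2 : ℝ) / z.1) c (1 / (Y : ℝ) ^ 2) 1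
    (⌊X⌋₊ + 1) (by positivity) (by omega) (by
      rintro ⟨r, a⟩ hz ⟨r', a'⟩ hz' hne
      rw [Finset.mem_sigma, hmem] at hz hz'
      refine spacing r r' a a' Y (hs r hz.1).1 (hs r' hz'.1).1 (hs r hz.1).2.1 (hs r' hz'.1).2.1
        hz.2.1 hz'.2.1 hz.2.2 hz'.2.2 ?_
      rintro ⟨rfl, rfl⟩
      exact hne rfl)
  have h2 : ∀ D : ℕ, ‖∑ z ∈ s.sigma t, c z * ee ((z.2 : ℝ) / z.1 * D)‖ ^ 2 =
      (∑ r ∈ s, b r * xD r D) ^ 2 := by
    intro D
    have e1 : ∑ z ∈ s.sigma t, c z * ee ((z.2 : ℝ) / z.1 * D) =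
        ((∑ r ∈ s, b r * xD r D : ℝ) : ℂ) := by
      rw [Finset.sum_sigma]
      push_cast
      refine Finset.sum_congr rfl (fun r hr => ?_)
      rw [hε2 r (hs r hr).1 (hs r hr).2.2.1 (hs r hr).2.2.2 D, ← mul_assoc, Finset.mul_sum, ht]
      refine Finset.sum_congr rfl (fun a _ => ?_)
      rw [hc, mul_comm (D : ℝ)]
      ring
    rw [e1, Complex.norm_real, Real.norm_eq_abs, sq_abs]
  have h3 : ∑ z ∈ s.sigma t, ‖c z‖ ^ 2 ≤ ∑ r ∈ s, b r ^ 2 := by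
    rw [Finset.sum_sigma]
    refine Finset.sum_le_sum (fun r hr => ?_)
    have hr1 : 2 ≤ r := (hs r hr).1
    have hrp : (0 : ℝ) < r := by exact_mod_cast (by omega : 0 < r)
    have e1 : ∀ a ∈ t r, ‖c ⟨r, a⟩‖ ^ 2 ≤ b r ^ 2 / r := by
      intro a _
      rw [hc]
      simp only
      rw [norm_mul, norm_mul, Complex.norm_real, Complex.norm_real, mul_pow, mul_pow,
        Real.norm_eq_abs, Real.norm_eq_abs, sq_abs, sq_abs, div_pow, one_pow,
        Real.sq_sqrt hrp.le]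
      have e2 : ‖ε r a‖ ^ 2 ≤ 1 := pow_le_one₀ (norm_nonneg _)
        (hε1 r (hs r hr).1 (hs r hr).2.2.1 (hs r hr).2.2.2 a)
      calc b r ^ 2 * (1 / r) * ‖ε r a‖ ^ 2 ≤ b r ^ 2 * (1 / r) * 1 := by gcongr
        _ = b r ^ 2 / r := by ring
    calc ∑ a ∈ t r, ‖c ⟨r, a⟩‖ ^ 2 ≤ ∑ a ∈ t r, b r ^ 2 / r := Finset.sum_le_sum e1
      _ = ((t r).card : ℝ) * (b r ^ 2 / r) := by rw [Finset.sum_const, nsmul_eq_mul]
      _ ≤ (r : ℝ) * (b r ^ 2 / r) := by
        have e3 : ((t r).card : ℝ) ≤ r := by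
          have e4 : (t r).card ≤ (Finset.range r).card := by
            rw [ht]
            exact Finset.card_filter_le _ _
          rw [Finset.card_range] at e4
          exact_mod_cast e4
        gcongr
      _ = b r ^ 2 := by field_simp
  have h4 : Finset.Icc 1 ⌊X⌋₊ = Finset.Ico 1 (⌊X⌋₊ + 1) := by
    ext D
    rw [Finset.mem_Icc, Finset.mem_Ico]
    omega
  rw [h4, ← Finset.sum_congr rfl (fun D _ => h2 D)]
  refine h1.trans ?_
  have h5 : (⌊X⌋₊ : ℝ) ≤ X := Nat.floor_le (by linarith)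
  have h6 : (((⌊X⌋₊ + 1 : ℕ) : ℝ) - (1 : ℕ) + 1 / (1 / (Y : ℝ) ^ 2)) ≤ X + (Y : ℝ) ^ 2 := by
    rw [one_div_one_div]
    push_cast
    linarith
  calc _ ≤ C * (X + (Y : ℝ) ^ 2) * ∑ z ∈ s.sigma t, ‖c z‖ ^ 2 := by
        refine mul_le_mul_of_nonneg_right (mul_le_mul_of_nonneg_left h6 hC.le) ?_
        exact Finset.sum_nonneg (fun _ _ => by positivity)
    _ ≤ _ := by gcongr

end Pool.Agent.H37.ADM
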